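import Pool.Agent.Helper27.PB.Goals

/-! Packet PB-STEPA (MP_b440f6_pr): one step, kernel A. -/

open scoped ENNReal
open Finset

namespace Pool.Agent.Helper69.PB

open Pool.Agent.Helper92.Eps hiding Bas
open Pool.Agent.Helper99.ZZ
open Pool.Agent.Helper27.PB

variable {B : Type} {D : ℕ}

theorem iv_t {P : Prop} (h : P) (x : ℝ≥0∞) : iv P x = x := by
  classical
  unfold iv; rw [if_pos h]

theorem iv_f {P : Prop} (h : ¬ P) (x : ℝ≥0∞) : iv P x = 0 := by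
  classical
  unfold iv; rw [if_neg h]

theorem iv_m (P : Prop) (x : ℝ≥0∞) : iv P x = iv P 1 * x := by
  by_cases h : P
  · rw [iv_t h, iv_t h, one_mul]
  · rw [iv_f h, iv_f h, zero_mul]

theorem iv_and (P Q : Prop) (x : ℝ≥0∞) : iv (P ∧ Q) x = iv P 1 * (iv Q 1 * x) := by
  by_cases h : P
  · by_cases h' : Q
    · rw [iv_t (And.intro h h'), iv_t h, iv_t h', one_mul, one_mul]
    · rw [iv_f (fun H => h' H.2), iv_f h', zero_mul, mul_zero]
  · rw [iv_f (fun H => h H.1), iv_f h, zero_mul]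

/-- the class of a stopped list -/
theorem cl_ex (A : Alph B D) (ρ : ℕ) (p : List B) (_hp : 2 ^ ρ < A.H p) :
    ∃ t, Cl A (2 ^ ρ) t p ∧ A.H p ≤ 2 ^ (t + 1) * 2 ^ ρ ∧ (1 ≤ t → 2 ^ t * 2 ^ ρ < A.H p) := by
  classical
  have hex : ∃ t, A.H p ≤ 2 ^ (t + 1) * 2 ^ ρ := by
    refine ⟨A.H p, ?_⟩
    have h1 : A.H p < 2 ^ A.H p := Nat.lt_two_pow_self
    have h2 : 1 ≤ 2 ^ ρ := Nat.one_le_two_pow
    calc A.H p ≤ 2 ^ A.H p := h1.le
      _ ≤ 2 ^ (A.H p + 1) := Nat.pow_le_pow_right (by norm_num) (Nat.le_succ _)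
      _ ≤ 2 ^ (A.H p + 1) * 2 ^ ρ := Nat.le_mul_of_pos_right _ h2
  refine ⟨Nat.find hex, ?_, Nat.find_spec hex, ?_⟩
  · rcases Nat.eq_zero_or_pos (Nat.find hex) with h0 | h0
    · left
      refine ⟨h0, ?_⟩
      have := Nat.find_spec hex
      rw [h0] at this
      simpa using this
    · right
      refine ⟨h0, ?_, Nat.find_spec hex⟩
      have h1 := Nat.find_min hex (m := Nat.find hex - 1) (by omega)
      rw [not_le] at h1
      rwa [Nat.sub_add_cancel h0] at h1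
  · intro h0
    have h1 := Nat.find_min hex (m := Nat.find hex - 1) (by omega)
    rw [not_le] at h1
    rwa [Nat.sub_add_cancel h0] at h1

theorem STEPA (hG : GSB_stmt) : STEPA_stmt := by
  classical
  intro τ γ hτ hγ hγτ
  have hγt : γ ≠ ⊤ := ne_top_of_lt hγτ
  have hτ0 : τ ≠ 0 := (lt_of_le_of_lt zero_le hγτ).ne'
  have hx1 : γ / τ < 1 := by
    rw [ENNReal.div_lt_iff (Or.inl hτ0) (Or.inl hτ), one_mul]
    exact hγτ
  refine ⟨(1 - γ / τ)⁻¹ + 16 * γ + 1, ?_, ?_⟩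
  · refine ENNReal.add_ne_top.2 ⟨ENNReal.add_ne_top.2 ⟨?_, ENNReal.mul_ne_top (by norm_num) hγt⟩,
      ENNReal.one_ne_top⟩
    rw [ENNReal.inv_ne_top]
    exact (tsub_pos_of_lt hx1).ne'
  intro B D A E hB Jm r j Θ C1 Ks Kl F hr hj hC hFs hFl hF0 t1 ht1
  obtain ⟨-, -, -, gmono, gsmul, gtsum, -⟩ := hG A hB.cal
  have gsum : ∀ (r n : ℕ) (φ : ℕ → List B → ℝ≥0∞),
      GS A r (fun p => ∑ i ∈ range n, φ i p) = ∑ i ∈ range n, GS A r (φ i) := by
    intro r n φ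
    have h1 := gtsum r (Fin n) (fun i => φ i)
    simp only [tsum_fintype] at h1
    simp only [Finset.sum_range]
    exact h1
  have S0 : ∀ n, A.S n ≠ 0 := fun n =>
    (lt_of_lt_of_le one_pos (hB.ren.S_one n)).ne'
  have St : ∀ n, A.S n ≠ ⊤ := fun n =>
    ne_top_of_le_ne_top (by exact ENNReal.add_ne_top.2 ⟨ENNReal.natCast_ne_top n, ENNReal.one_ne_top⟩)
      (hB.ren.S_le n)
  rcases hr with rfl | ⟨ρ, rfl, hρ⟩
  · -- depth zero
    have hH0 : A.H ([] : List B) = 0 := rfl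
    rcases Nat.eq_zero_or_pos t1 with rfl | ht
    · have hcl : Cl A 0 0 ([] : List B) := Or.inl ⟨rfl, by rw [hH0]⟩
      have h1 := hC 0 0 (by simp) (by simp)
      simp only [GS, if_true] at h1 ⊢
      rw [iv_t ⟨hcl, hcl⟩] at h1
      rw [iv_t hcl]
      simp only [pow_zero, mul_one, add_zero, mul_zero] at h1 ⊢
      have hS0 : A.S 0 = 1 := by
        unfold Alph.S
        simp [hB.ren.u_zero]
      rw [hS0] at h1 ⊢
      simp only [mul_one, div_one] at h1 ⊢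
      have hstp : Stp A 0 ([] : List B) := Or.inl ⟨rfl, rfl⟩
      have hFK : F [] ≤ Ks := hFs [] hstp (by rw [hH0]; exact Nat.zero_le _)
      calc ker A E (Nat.log 2 0) Θ true 0 [] [] * F [] ≤ C1 * Ks := mul_le_mul' h1 hFK
        _ = 1 * C1 * Ks := by ring
        _ ≤ ((1 - γ / τ)⁻¹ + 16 * γ + 1) * C1 * (Ks + Kl * γ ^ (j - Nat.log 2 0) / A.S (2 ^ j)) := by
          refine mul_le_mul' (mul_le_mul' le_add_self le_rfl) le_self_add
    · have hcl : ¬ Cl A 0 t1 ([] : List B) := by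
        rintro (⟨h, -⟩ | ⟨-, h, -⟩)
        · omega
        · rw [hH0] at h
          omega
      simp only [GS, if_true]
      rw [iv_f hcl, zero_mul]
      exact zero_le
  · -- depth `2 ^ ρ`
    have hlog : Nat.log 2 (2 ^ ρ) = ρ := Nat.log_pow (by norm_num) ρ
    rw [hlog] at ht1 ⊢
    set Kf : ℕ → ℝ≥0∞ := fun t => if t + 1 + ρ ≤ j - 2 then Ks else Kl with hKf
    set n : ℕ := j + 2 - ρ with hn
    set a : ℝ≥0∞ := A.S (2 ^ ρ) with ha
    have ha0 : a ≠ 0 := S0 _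
    have hat : a ≠ ⊤ := St _
    have hFp : ∀ p2, Stp A (2 ^ ρ) p2 → A.W p2 ≠ 0 →
        F p2 ≤ ∑ t2 ∈ range n, iv (Cl A (2 ^ ρ) t2 p2) 1 * Kf t2 := by
      intro p2 hs _
      by_cases hbig : 2 ^ (j + 2) < A.H p2
      · rw [hF0 p2 hs hbig]
        exact zero_le
      · rw [not_lt] at hbig
        have hHp : 2 ^ ρ < A.H p2 := by
          rcases hs with ⟨h, -⟩ | ⟨-, h⟩
          · exact absurd h (by positivity)
          · exact h.2
        obtain ⟨t, hcl, hle, hlt⟩ := cl_ex A ρ p2 hHp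
        have htn : t ∈ range n := by
          rw [mem_range]
          rcases Nat.eq_zero_or_pos t with h0 | h0
          · omega
          · have h1 := hlt h0
            rw [← pow_add] at h1
            have h2 : 2 ^ (t + ρ) < 2 ^ (j + 2) := lt_of_lt_of_le h1 hbig
            have h3 := (Nat.pow_lt_pow_iff_right (by norm_num : 1 < 2)).1 h2
            omega
        refine le_trans ?_ (Finset.single_le_sum (f := fun t2 => iv (Cl A (2 ^ ρ) t2 p2) 1 * Kf t2)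
          (fun _ _ => zero_le) htn)
        rw [iv_t hcl, one_mul, hKf]
        simp only
        split_ifs with h
        · apply hFs p2 hs
          calc A.H p2 ≤ 2 ^ (t + 1) * 2 ^ ρ := hle
            _ = 2 ^ (t + 1 + ρ) := (pow_add _ _ _).symm
            _ ≤ 2 ^ (j - 2) := Nat.pow_le_pow_right (by norm_num) h
        · exact hFl p2 hs
    -- the sum over the classes
    set X : ℕ → ℝ≥0∞ := fun t2 => GS A (2 ^ ρ) (fun p => GS A (2 ^ ρ) (fun p2 =>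
      iv (Cl A (2 ^ ρ) t1 p ∧ Cl A (2 ^ ρ) t2 p2) (ker A E ρ Θ true (2 ^ ρ) p p2))) with hX
    have hmain : GS A (2 ^ ρ) (fun p => iv (Cl A (2 ^ ρ) t1 p) (GS A (2 ^ ρ) (fun p2 =>
        ker A E ρ Θ true (2 ^ ρ) p p2 * F p2))) ≤ ∑ t2 ∈ range n, Kf t2 * X t2 := by
      have h1 : GS A (2 ^ ρ) (fun p => iv (Cl A (2 ^ ρ) t1 p) (GS A (2 ^ ρ) (fun p2 =>
          ker A E ρ Θ true (2 ^ ρ) p p2 * F p2))) ≤
          GS A (2 ^ ρ) (fun p => iv (Cl A (2 ^ ρ) t1 p) (GS A (2 ^ ρ) (fun p2 =>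
          ker A E ρ Θ true (2 ^ ρ) p p2 * ∑ t2 ∈ range n, iv (Cl A (2 ^ ρ) t2 p2) 1 * Kf t2))) := by
        refine gmono _ _ _ fun p _ _ => ?_
        rw [iv_m, iv_m (Cl A (2 ^ ρ) t1 p) (GS A (2 ^ ρ) _)]
        refine mul_le_mul' le_rfl (gmono _ _ _ fun p2 h2 h2' => ?_)
        exact mul_le_mul' le_rfl (hFp p2 h2 h2')
      refine h1.trans (le_of_eq ?_)
      have h2 : ∀ p, iv (Cl A (2 ^ ρ) t1 p) (GS A (2 ^ ρ) (fun p2 =>
          ker A E ρ Θ true (2 ^ ρ) p p2 * ∑ t2 ∈ range n, iv (Cl A (2 ^ ρ) t2 p2) 1 * Kf t2)) =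
          ∑ t2 ∈ range n, Kf t2 * GS A (2 ^ ρ) (fun p2 =>
            iv (Cl A (2 ^ ρ) t1 p ∧ Cl A (2 ^ ρ) t2 p2) (ker A E ρ Θ true (2 ^ ρ) p p2)) := by
        intro p
        rw [iv_m, ← gsmul]
        have h3 : (fun p2 => iv (Cl A (2 ^ ρ) t1 p) 1 * (ker A E ρ Θ true (2 ^ ρ) p p2 *
            ∑ t2 ∈ range n, iv (Cl A (2 ^ ρ) t2 p2) 1 * Kf t2)) =
            fun p2 => ∑ t2 ∈ range n, Kf t2 * iv (Cl A (2 ^ ρ) t1 p ∧ Cl A (2 ^ ρ) t2 p2)
              (ker A E ρ Θ true (2 ^ ρ) p p2) := by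
          funext p2
          rw [Finset.mul_sum, Finset.mul_sum]
          refine Finset.sum_congr rfl fun t2 _ => ?_
          rw [iv_and]
          ring
        rw [h3, gsum]
        refine Finset.sum_congr rfl fun t2 _ => ?_
        rw [gsmul]
      rw [funext h2, gsum]
      refine Finset.sum_congr rfl fun t2 _ => ?_
      rw [gsmul]
    -- bound of one class
    have hS : ∀ t, A.S (2 ^ t * 2 ^ ρ) = A.S (2 ^ (ρ + t)) := by
      intro t
      rw [pow_add, mul_comm]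
    have hCt : ∀ t2 ∈ range n, X t2 * (A.S (2 ^ t1 * 2 ^ ρ) * A.S (2 ^ (ρ + t2))) ≤
        C1 * γ ^ (t1 + t2) * a := by
      intro t2 h2
      rw [mem_range] at h2
      have h3 := hC t1 t2 (by rw [hlog]; omega) (by rw [hlog]; omega)
      rw [hlog, hS t2] at h3
      exact h3
    set S1 : ℝ≥0∞ := A.S (2 ^ t1 * 2 ^ ρ) with hS1
    have hsmall : ∀ t2 ∈ range n, X t2 * S1 ≤ C1 * γ ^ t1 * (γ / τ) ^ t2 := by
      intro t2 h2
      have h3 := hCt t2 h2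
      have h4 : τ ^ t2 * a ≤ A.S (2 ^ (ρ + t2)) := hB.gr ρ t2
      have h5 : X t2 * S1 * τ ^ t2 * a ≤ C1 * γ ^ (t1 + t2) * a := by
        calc X t2 * S1 * τ ^ t2 * a = X t2 * (S1 * (τ ^ t2 * a)) := by ring
          _ ≤ X t2 * (S1 * A.S (2 ^ (ρ + t2))) := by gcongr
          _ ≤ _ := h3
      have h6 : X t2 * S1 * τ ^ t2 ≤ C1 * γ ^ (t1 + t2) :=
        (ENNReal.mul_le_mul_iff_left ha0 hat).1 h5
      have hp0 : τ ^ t2 ≠ 0 := pow_ne_zero _ hτ0
      have hpt : τ ^ t2 ≠ ⊤ := ENNReal.pow_ne_top hτ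
      have h7 : X t2 * S1 ≤ C1 * γ ^ (t1 + t2) / τ ^ t2 := by
        rw [ENNReal.le_div_iff_mul_le (Or.inl hp0) (Or.inl hpt)]
        exact h6
      refine h7.trans (le_of_eq ?_)
      rw [pow_add, div_eq_mul_inv, div_eq_mul_inv, mul_pow, ENNReal.inv_pow]
      ring
    have hj4 : A.S (2 ^ j) ≤ 4 * A.S (2 ^ (j - 2)) := by
      have e1 : 2 ^ j = (2 ^ (j - 2) + 2 ^ (j - 2)) + (2 ^ (j - 2) + 2 ^ (j - 2)) := by
        have : 2 ^ j = 2 ^ (j - 2) * 2 ^ 2 := by rw [← pow_add]; congr 1; omega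
        rw [this]; ring
      have r7 : ∀ x y, A.S (x + y) ≤ A.S x + A.S y := fun x y => (hB.anti (x + y)).R7 x y le_rfl
      rw [e1]
      calc A.S ((2 ^ (j - 2) + 2 ^ (j - 2)) + (2 ^ (j - 2) + 2 ^ (j - 2)))
          ≤ A.S (2 ^ (j - 2) + 2 ^ (j - 2)) + A.S (2 ^ (j - 2) + 2 ^ (j - 2)) := r7 _ _
        _ ≤ (A.S (2 ^ (j - 2)) + A.S (2 ^ (j - 2))) + (A.S (2 ^ (j - 2)) + A.S (2 ^ (j - 2))) :=
          add_le_add (r7 _ _) (r7 _ _)
        _ = 4 * A.S (2 ^ (j - 2)) := by ring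
    set Y : ℝ≥0∞ := 4 * C1 * γ ^ t1 * γ * γ ^ (j - ρ) * a / A.S (2 ^ j) with hY
    have hlarge : ∀ t2 ∈ range n, j - 2 ≤ t2 + ρ → X t2 * S1 ≤ Y := by
      intro t2 h2 h2'
      have h3 := hCt t2 h2
      rw [mem_range] at h2
      have h4 : A.S (2 ^ j) ≤ 4 * A.S (2 ^ (ρ + t2)) := by
        refine hj4.trans ?_
        gcongr
        apply hB.ren.S_mono
        exact Nat.pow_le_pow_right (by norm_num) (by omega)
      rw [hY, ENNReal.le_div_iff_mul_le (Or.inl (S0 _)) (Or.inl (St _))]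
      have h5 : γ ^ t2 ≤ γ * γ ^ (j - ρ) := by
        rw [← pow_succ']
        exact pow_le_pow_right₀ hγ (by omega)
      calc X t2 * S1 * A.S (2 ^ j) ≤ X t2 * S1 * (4 * A.S (2 ^ (ρ + t2))) := by gcongr
        _ = 4 * (X t2 * (S1 * A.S (2 ^ (ρ + t2)))) := by ring
        _ ≤ 4 * (C1 * γ ^ (t1 + t2) * a) := by gcongr
        _ = 4 * C1 * γ ^ t1 * γ ^ t2 * a := by rw [pow_add]; ring
        _ ≤ 4 * C1 * γ ^ t1 * (γ * γ ^ (j - ρ)) * a := by gcongr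
        _ = 4 * C1 * γ ^ t1 * γ * γ ^ (j - ρ) * a := by ring
    have hterm : ∀ t2 ∈ range n, Kf t2 * X t2 * S1 ≤
        Ks * C1 * γ ^ t1 * (γ / τ) ^ t2 + (if j - 2 ≤ t2 + ρ then Kl * Y else 0) := by
      intro t2 h2
      rw [hKf]
      simp only
      split_ifs with h h' h'
      · calc Ks * X t2 * S1 = Ks * (X t2 * S1) := by ring
          _ ≤ Ks * (C1 * γ ^ t1 * (γ / τ) ^ t2) := mul_le_mul' le_rfl (hsmall t2 h2)
          _ = Ks * C1 * γ ^ t1 * (γ / τ) ^ t2 := by ring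
          _ ≤ _ := le_self_add
      · rw [add_zero]
        calc Ks * X t2 * S1 = Ks * (X t2 * S1) := by ring
          _ ≤ Ks * (C1 * γ ^ t1 * (γ / τ) ^ t2) := mul_le_mul' le_rfl (hsmall t2 h2)
          _ = Ks * C1 * γ ^ t1 * (γ / τ) ^ t2 := by ring
      · calc Kl * X t2 * S1 = Kl * (X t2 * S1) := by ring
          _ ≤ Kl * Y := mul_le_mul' le_rfl (hlarge t2 h2 h')
          _ ≤ _ := le_add_self
      · exfalso; omega
    have hsum1 : ∑ t2 ∈ range n, Ks * C1 * γ ^ t1 * (γ / τ) ^ t2 ≤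
        Ks * C1 * γ ^ t1 * (1 - γ / τ)⁻¹ := by
      rw [← Finset.mul_sum]
      gcongr
      rw [← ENNReal.tsum_geometric]
      exact ENNReal.sum_le_tsum _
    have hsum2 : ∑ t2 ∈ range n, (if j - 2 ≤ t2 + ρ then Kl * Y else 0) ≤ 4 * (Kl * Y) := by
      rw [← Finset.sum_filter, Finset.sum_const, nsmul_eq_mul]
      gcongr
      have hsub : (range n).filter (fun t2 => j - 2 ≤ t2 + ρ) ⊆ Finset.Ico (j - 2 - ρ) (j + 2 - ρ) := by
        intro x hx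
        rw [Finset.mem_filter, Finset.mem_range] at hx
        rw [Finset.mem_Ico]
        omega
      have hc := Finset.card_le_card hsub
      rw [Nat.card_Ico] at hc
      have : j + 2 - ρ - (j - 2 - ρ) = 4 := by omega
      rw [this] at hc
      exact_mod_cast hc
    calc GS A (2 ^ ρ) (fun p => iv (Cl A (2 ^ ρ) t1 p) (GS A (2 ^ ρ) (fun p2 =>
        ker A E ρ Θ true (2 ^ ρ) p p2 * F p2))) * S1
        ≤ (∑ t2 ∈ range n, Kf t2 * X t2) * S1 := by gcongr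
      _ = ∑ t2 ∈ range n, Kf t2 * X t2 * S1 := Finset.sum_mul _ _ _
      _ ≤ ∑ t2 ∈ range n, (Ks * C1 * γ ^ t1 * (γ / τ) ^ t2 +
          (if j - 2 ≤ t2 + ρ then Kl * Y else 0)) := Finset.sum_le_sum hterm
      _ = ∑ t2 ∈ range n, Ks * C1 * γ ^ t1 * (γ / τ) ^ t2 +
          ∑ t2 ∈ range n, (if j - 2 ≤ t2 + ρ then Kl * Y else 0) := Finset.sum_add_distrib
      _ ≤ Ks * C1 * γ ^ t1 * (1 - γ / τ)⁻¹ + 4 * (Kl * Y) := add_le_add hsum1 hsum2
      _ = (1 - γ / τ)⁻¹ * C1 * Ks * γ ^ t1 +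
          (16 * γ) * C1 * (Kl * γ ^ (j - ρ) / A.S (2 ^ j)) * γ ^ t1 * a := by
          rw [hY]
          simp only [div_eq_mul_inv]
          ring
      _ ≤ ((1 - γ / τ)⁻¹ + 16 * γ + 1) * C1 * Ks * γ ^ t1 +
          ((1 - γ / τ)⁻¹ + 16 * γ + 1) * C1 * (Kl * γ ^ (j - ρ) / A.S (2 ^ j)) * γ ^ t1 * a := by
          gcongr
          · exact le_add_right le_self_add
          · exact le_add_right le_add_self
      _ = ((1 - γ / τ)⁻¹ + 16 * γ + 1) * C1 * (Ks / a + Kl * γ ^ (j - ρ) / A.S (2 ^ j)) *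
          γ ^ t1 * a := by
          have e : Ks = Ks / a * a := (ENNReal.div_mul_cancel ha0 hat).symm
          calc ((1 - γ / τ)⁻¹ + 16 * γ + 1) * C1 * Ks * γ ^ t1 +
              ((1 - γ / τ)⁻¹ + 16 * γ + 1) * C1 * (Kl * γ ^ (j - ρ) / A.S (2 ^ j)) * γ ^ t1 * a
              = ((1 - γ / τ)⁻¹ + 16 * γ + 1) * C1 * (Ks / a * a) * γ ^ t1 +
              ((1 - γ / τ)⁻¹ + 16 * γ + 1) * C1 * (Kl * γ ^ (j - ρ) / A.S (2 ^ j)) * γ ^ t1 * a := by
                rw [← e]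
            _ = _ := by ring

end Pool.Agent.Helper69.PB
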